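import Pool.Agent.H36.SplitSeq

/-!
The exact value of `disc(n)` for interval splitting strategies.
-/

namespace Pool.Agent.Results.MP_eb524a_co.ExactValue

open Pool.Agent.H36.Split

/-- For every `n ≥ 1`, the minimum of `discUpTo S n` over all strategies `S` of length `n` is
attained and equals `2 ^ (1 - 1 / ⌈n / 2⌉)`. -/
theorem result (n : ℕ) (hn : 1 ≤ n) :
    IsLeast {r : ℝ | ∃ S : ℕ → Finset (ℝ × ℝ), IsStrategy n S ∧ r = discUpTo S n}
      ((2 : ℝ) ^ (1 - 1 / (⌈(n : ℝ) / 2⌉₊ : ℝ))) :=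
  exact_value hn

end Pool.Agent.Results.MP_eb524a_co.ExactValue
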