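import Pool.Agent.H36.SplitFifoSharp

/-!
The question for first-in-first-out strategies: the liminf is at least `log 2`, and this is sharp.
-/

namespace Pool.Agent.Results.MP_eb524a_co.FifoLiminf

open Pool.Agent.H36.Split Filter

/-- For every infinite strategy whose cuts eventually always produce the two shortest intervals,
the lower limit of `n (disc_n(S) - disc(n))` is at least `log 2 > 0`, and some such strategy has
lower limit exactly `log 2`. -/
theorem result :
    (∀ S : ℕ → Finset (ℝ × ℝ), IsInfStrategy S → NewShortest S → ∀ ε : ℝ, 0 < ε →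
      ∀ᶠ n : ℕ in atTop, Real.log 2 - ε ≤ n * (discUpTo S n - discMin n)) ∧
    (∃ S : ℕ → Finset (ℝ × ℝ), IsInfStrategy S ∧ NewShortest S ∧
      ∃ᶠ n : ℕ in atTop, n * (discUpTo S n - discMin n) ≤ Real.log 2) :=
  ⟨fun _ hS hF _ hε => fifo_lower hS hF hε, fifo_upper⟩

end Pool.Agent.Results.MP_eb524a_co.FifoLiminf
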