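import Pool.Agent.H17.SP.Final

/-!
The full answer to Q1 of MP_eb524a_co: it is true.
-/

namespace Pool.Agent.Results.MP_eb524a_co.PositiveLiminf

open Pool.Agent.H36.Split Filter

/-- For every infinite-length strategy `S`, the lower limit of `n (disc_n(S) - disc(n))` (taken in
the extended reals) is positive; in other words, some constant `c > 0` satisfies
`n (disc_n(S) - disc(n)) ≥ c` for all large `n`. -/
theorem result (S : ℕ → Finset (ℝ × ℝ)) (hS : IsInfStrategy S) :
    (0 < liminf (fun n : ℕ => ((n * (discUpTo S n - discMin n) : ℝ) : EReal)) atTop) ∧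
    ∃ c : ℝ, 0 < c ∧ ∀ᶠ n : ℕ in atTop, c ≤ n * (discUpTo S n - discMin n) := by
  obtain ⟨c, hc, h⟩ := Pool.H17.SP.positive_liminf hS
  refine ⟨?_, c, hc, h⟩
  have h1 : ((c : ℝ) : EReal) ≤
      liminf (fun n : ℕ => ((n * (discUpTo S n - discMin n) : ℝ) : EReal)) atTop := by
    refine le_liminf_of_le (by isBoundedDefault) ?_
    filter_upwards [h] with n hn
    exact EReal.coe_le_coe_iff.mpr hn
  exact lt_of_lt_of_le (EReal.coe_pos.mpr hc) h1

end Pool.Agent.Results.MP_eb524a_co.PositiveLiminf
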