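import Pool.Agent.H36.SplitLimsupMain

/-!
The smallest possible upper limit of `n (disc_n(S) - disc(n))` over infinite strategies `S`.
-/

namespace Pool.Agent.Results.MP_eb524a_co.SharpLimsup

open Pool.Agent.H36.Split Filter

/-- For every infinite strategy `S`, the upper limit of `n (disc_n(S) - disc(n))` is at least
`4 log 2 - 3 / 2`, and some infinite strategy attains this value. -/
theorem result :
    (∀ S : ℕ → Finset (ℝ × ℝ), IsInfStrategy S → ∀ ε : ℝ, 0 < ε →
      ∃ᶠ n : ℕ in atTop, 4 * Real.log 2 - 3 / 2 - ε ≤ n * (discUpTo S n - discMin n)) ∧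
    (∃ S : ℕ → Finset (ℝ × ℝ), IsInfStrategy S ∧ ∀ ε : ℝ, 0 < ε →
      ∀ᶠ n : ℕ in atTop, n * (discUpTo S n - discMin n) ≤ 4 * Real.log 2 - 3 / 2 + ε) :=
  ⟨fun _ hS _ hε => limsup_lower hS hε, limsup_upper⟩

end Pool.Agent.Results.MP_eb524a_co.SharpLimsup
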